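import Pool.Agent.Helper17_Anderson.Kappa
import Pool.Agent.LE.StmtsK

/-!
# Squad LSP, row TSA, part 1: integrals over the torus in the coordinates of the cube
-/

set_option autoImplicit false

open MeasureTheory Set Real Function

open scoped ENNReal ComplexConjugate

noncomputable section

namespace Pool.Agent.LE.CL.H76

open Pool.Agent.Anderson

local instance haarMSt : MeasureSpace UnitAddCircle := ⟨AddCircle.haarAddCircle⟩

local instance haarAHt : Measure.IsAddHaarMeasure (volume : Measure UnitAddCircle) :=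
  inferInstanceAs (Measure.IsAddHaarMeasure AddCircle.haarAddCircle)

local instance haarPMt : IsProbabilityMeasure (volume : Measure UnitAddCircle) :=
  inferInstanceAs (IsProbabilityMeasure AddCircle.haarAddCircle)

variable {d : ℕ}

/-- the covering of the torus -/
def cov (x : Fin d → ℝ) : UnitAddTorus (Fin d) := fun j => (x j : UnitAddCircle)

theorem mp_one : MeasurePreserving (fun t : ℝ => (t : UnitAddCircle))
    (volume.restrict (Ioc (0 : ℝ) 1)) (volume : Measure UnitAddCircle) := by
  have h1 := AddCircle.measurePreserving_mk (1 : ℝ) 0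
  rw [AddCircle.volume_eq_smul_haarAddCircle, zero_add] at h1
  simp only [ENNReal.ofReal_one, one_smul] at h1
  exact h1

theorem mp_cov : MeasurePreserving (cov (d := d))
    (volume.restrict (Set.pi Set.univ fun _ => Ioc (0 : ℝ) 1)) volume := by
  have h2 := measurePreserving_pi (fun _ : Fin d => volume.restrict (Ioc (0 : ℝ) 1))
    (fun _ => (volume : Measure UnitAddCircle)) (fun _ => mp_one)
  have h3 : (volume : Measure (Fin d → ℝ)).restrict (Set.pi Set.univ fun _ => Ioc (0 : ℝ) 1) =
      Measure.pi (fun _ : Fin d => volume.restrict (Ioc (0 : ℝ) 1)) := by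
    rw [volume_pi, Measure.restrict_pi_pi]
  rw [h3]
  exact h2

/-- the representative in `(0, 1]` -/
def rep (θ : UnitAddCircle) : ℝ := (AddCircle.measurableEquivIoc (1 : ℝ) 0 θ : ℝ)

theorem measurable_rep : Measurable rep :=
  measurable_subtype_coe.comp (AddCircle.measurableEquivIoc (1 : ℝ) 0).measurable

theorem coe_rep (θ : UnitAddCircle) : ((rep θ : ℝ) : UnitAddCircle) = θ :=
  AddCircle.coe_equivIoc (p := (1 : ℝ)) (a := 0)

theorem rep_coe {x : ℝ} (hx : x ∈ Ioc (0 : ℝ) 1) : rep (x : UnitAddCircle) = x := by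
  have hx' : x ∈ Ioc (0 : ℝ) (0 + 1) := by simpa using hx
  have h := AddCircle.equivIoc_coe_eq (p := (1 : ℝ)) (a := 0) hx'
  have h2 := congrArg Subtype.val h
  exact h2

/-- the angles of a point of the torus -/
def ang (θ : UnitAddTorus (Fin d)) : Fin d → ℝ := fun j => 2 * π * rep (θ j)

theorem measurable_ang : Measurable (ang (d := d)) := by
  unfold ang
  refine measurable_pi_lambda _ fun j => ?_
  exact (measurable_rep.comp (measurable_pi_apply j)).const_mul (2 * π)

theorem sy_eq (θ : UnitAddTorus (Fin d)) : sy θ = ∑ j, 2 * Real.cos (ang θ j) := by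
  unfold sy
  apply Finset.sum_congr rfl
  intro j _
  unfold c2
  have h : u (θ j) = Complex.exp ((ang θ j : ℝ) * Complex.I) := by
    rw [← coe_rep (θ j), u_coe]
    congr 1
    unfold ang
    push_cast
    ring
  rw [h, Complex.exp_ofReal_mul_I_re]

theorem ch_eq (y : Site d) (θ : UnitAddTorus (Fin d)) :
    ch y θ = ∏ j, Complex.exp (Complex.I * ((y j * ang θ j : ℝ) : ℂ)) := by
  unfold ch UnitAddTorus.mFourier
  simp only [ContinuousMap.coe_mk]
  apply Finset.prod_congr rfl
  intro j _
  conv_lhs => rw [← coe_rep (θ j)]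
  rw [fourier_coe_apply]
  congr 1
  unfold ang
  push_cast
  ring

/-- a function which vanishes outside of the open cube of the angles -/
theorem integral_ang {E : Type*} [NormedAddCommGroup E] [NormedSpace ℝ E]
    (F : (Fin d → ℝ) → E)
    (hFm : AEStronglyMeasurable (fun θ : UnitAddTorus (Fin d) => F (ang θ)) volume)
    (h0 : ∀ y : Fin d → ℝ, (∃ j, y j ≤ 0 ∨ 2 * π < y j) → F y = 0) :
    ∫ θ : UnitAddTorus (Fin d), F (ang θ) = ((2 * π) ^ d)⁻¹ • ∫ y, F y := by
  have hpi := Real.pi_pos
  have h1 : ∫ θ : UnitAddTorus (Fin d), F (ang θ) =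
      ∫ x in Set.pi Set.univ fun _ => Ioc (0 : ℝ) 1, F (ang (cov x)) := by
    rw [← mp_cov.map_eq] at hFm ⊢
    rw [integral_map mp_cov.measurable.aemeasurable hFm]
  have h2 : ∫ x in Set.pi Set.univ fun _ : Fin d => Ioc (0 : ℝ) 1, F (ang (cov x)) =
      ∫ x in Set.pi Set.univ fun _ : Fin d => Ioc (0 : ℝ) 1, F ((2 * π) • x) := by
    apply setIntegral_congr_fun (MeasurableSet.univ_pi fun _ => measurableSet_Ioc)
    intro x hx
    show F (ang (cov x)) = F ((2 * π) • x)
    congr 1
    funext j
    unfold ang cov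
    rw [rep_coe (hx j (Set.mem_univ j))]
    rfl
  have h3 : ∫ x in Set.pi Set.univ fun _ : Fin d => Ioc (0 : ℝ) 1, F ((2 * π) • x) =
      ∫ x : Fin d → ℝ, F ((2 * π) • x) := by
    apply setIntegral_eq_integral_of_forall_compl_eq_zero
    intro x hx
    apply h0
    rw [Set.mem_univ_pi] at hx
    push Not at hx
    obtain ⟨j, hj⟩ := hx
    refine ⟨j, ?_⟩
    rw [Set.mem_Ioc, not_and_or, not_lt, not_le] at hj
    rcases hj with hj | hj
    · left
      show 2 * π * x j ≤ 0
      exact mul_nonpos_of_nonneg_of_nonpos (by positivity) hj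
    · right
      show 2 * π < 2 * π * x j
      nlinarith
  rw [h1, h2, h3, Measure.integral_comp_smul, Module.finrank_fin_fun]
  congr 1
  rw [abs_of_pos]
  positivity

end Pool.Agent.LE.CL.H76
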