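import Pool.Agent.Helper76_LSP.Wh

/-!
# Squad LSP, row TSA, part 3: the Fourier coefficients
-/

set_option autoImplicit false

open MeasureTheory Set Real Function

open scoped ENNReal ComplexConjugate

noncomputable section

namespace Pool.Agent.LE.CL.H76

open Pool.Agent.Anderson

local instance haarMSf : MeasureSpace UnitAddCircle := ⟨AddCircle.haarAddCircle⟩

local instance haarAHf : Measure.IsAddHaarMeasure (volume : Measure UnitAddCircle) :=
  inferInstanceAs (Measure.IsAddHaarMeasure AddCircle.haarAddCircle)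

local instance haarPMf : IsProbabilityMeasure (volume : Measure UnitAddCircle) :=
  inferInstanceAs (IsProbabilityMeasure AddCircle.haarAddCircle)

variable {d : ℕ} {th0 : Fin d → ℝ} {r : ℝ}

/-- the integrand -/
def gg (th0 : Fin d → ℝ) (r E : ℝ) (n : Site d) (θ : UnitAddTorus (Fin d)) (t : ℝ) : ℂ :=
  (cut th0 r (ang θ) : ℂ) * (Complex.exp (-(Complex.I * ((t * (sy θ - E) : ℝ) : ℂ))) * ch n θ)

theorem measurable_cut_ang : Measurable fun θ : UnitAddTorus (Fin d) => cut th0 r (ang θ) :=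
  continuous_cut.measurable.comp measurable_ang

theorem measurable_gg (E : ℝ) (n : Site d) :
    Measurable fun p : UnitAddTorus (Fin d) × ℝ => gg th0 r E n p.1 p.2 := by
  unfold gg
  have h1 : Measurable fun p : UnitAddTorus (Fin d) × ℝ => cut th0 r (ang p.1) :=
    measurable_cut_ang.comp measurable_fst
  have h2 : Measurable fun p : UnitAddTorus (Fin d) × ℝ => sy p.1 :=
    continuous_sy.measurable.comp measurable_fst
  have h3 : Measurable fun p : UnitAddTorus (Fin d) × ℝ => ch n p.1 :=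
    (continuous_ch n).measurable.comp measurable_fst
  have h4 : Measurable fun p : UnitAddTorus (Fin d) × ℝ => (p.2 * (sy p.1 - E) : ℝ) :=
    measurable_snd.mul (h2.sub_const E)
  have h5 : Measurable fun p : UnitAddTorus (Fin d) × ℝ =>
      Complex.exp (-(Complex.I * ((p.2 * (sy p.1 - E) : ℝ) : ℂ))) :=
    Complex.measurable_exp.comp
      (((Complex.measurable_ofReal.comp h4).const_mul Complex.I).neg)
  exact (Complex.measurable_ofReal.comp h1).mul (h5.mul h3)

theorem measurable_gg1 (E t : ℝ) (n : Site d) :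
    Measurable fun θ : UnitAddTorus (Fin d) => gg th0 r E n θ t := by
  unfold gg
  have h1 : Measurable fun θ : UnitAddTorus (Fin d) => cut th0 r (ang θ) := measurable_cut_ang
  have h2 : Measurable fun θ : UnitAddTorus (Fin d) => sy θ := continuous_sy.measurable
  have h3 : Measurable fun θ : UnitAddTorus (Fin d) => ch n θ := (continuous_ch n).measurable
  have h4 : Measurable fun θ : UnitAddTorus (Fin d) => (t * (sy θ - E) : ℝ) :=
    (h2.sub_const E).const_mul t
  have h5 : Measurable fun θ : UnitAddTorus (Fin d) =>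
      Complex.exp (-(Complex.I * ((t * (sy θ - E) : ℝ) : ℂ))) :=
    Complex.measurable_exp.comp
      (((Complex.measurable_ofReal.comp h4).const_mul Complex.I).neg)
  exact (Complex.measurable_ofReal.comp h1).mul (h5.mul h3)

theorem norm_gg_le (hr : 0 < r) (hr1 : r ≤ 1 / 2) (E : ℝ) (n : Site d)
    (θ : UnitAddTorus (Fin d)) (t : ℝ) : ‖gg th0 r E n θ t‖ ≤ 1 := by
  unfold gg
  rw [norm_mul, norm_mul, norm_ch, mul_one, Complex.norm_real, Real.norm_eq_abs,
    abs_of_nonneg (cut_nonneg _)]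
  have h1 : ‖Complex.exp (-(Complex.I * ((t * (sy θ - E) : ℝ) : ℂ)))‖ = 1 := by
    rw [show -(Complex.I * ((t * (sy θ - E) : ℝ) : ℂ)) =
      ((-(t * (sy θ - E)) : ℝ) : ℂ) * Complex.I by push_cast; ring]
    exact Complex.norm_exp_ofReal_mul_I _
  rw [h1, mul_one]
  exact cut_le_one hr hr1 _

theorem prod_exp (x : Fin d → ℝ) : ∏ j, Complex.exp (Complex.I * ((x j : ℝ) : ℂ)) =
    Complex.exp (Complex.I * ((∑ j, x j : ℝ) : ℂ)) := by
  rw [← Complex.exp_sum, Complex.ofReal_sum, Finset.mul_sum]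

theorem integrand_eq (E t : ℝ) (n : Site d) (y : Fin d → ℝ) :
    (cut th0 r y : ℂ) *
      (Complex.exp (-(Complex.I * ((t * (∑ j, 2 * Real.cos (y j) - E) : ℝ) : ℂ))) *
        ∏ j, Complex.exp (Complex.I * ((n j * y j : ℝ) : ℂ))) =
    Complex.exp (Complex.I * ((t * E : ℝ) : ℂ)) *
        ∏ j, (((aa (th0 j) r (y j) : ℝ) : ℂ) *
          Complex.exp (Complex.I * ((n j * y j - 2 * t * Real.cos (y j) : ℝ) : ℂ))) := by
  rw [Finset.prod_mul_distrib, prod_exp, prod_exp]
  have h1 : (cut th0 r y : ℂ) = ∏ j, ((aa (th0 j) r (y j) : ℝ) : ℂ) := by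
    unfold cut
    rw [Complex.ofReal_prod]
  have h2 : ∑ j, (n j * y j - 2 * t * Real.cos (y j) : ℝ) =
      ∑ j, (n j * y j : ℝ) - t * ∑ j, 2 * Real.cos (y j) := by
    rw [Finset.sum_sub_distrib, Finset.mul_sum]
    congr 1
    apply Finset.sum_congr rfl
    intro j _
    ring
  obtain ⟨s1, hs1⟩ : ∃ s1 : ℝ, s1 = ∑ j, (n j * y j : ℝ) := ⟨_, rfl⟩
  obtain ⟨s2, hs2⟩ : ∃ s2 : ℝ, s2 = ∑ j, 2 * Real.cos (y j) := ⟨_, rfl⟩
  rw [← h1, h2, ← hs1, ← hs2, mul_left_comm (Complex.exp (Complex.I * ((t * E : ℝ) : ℂ))),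
    ← Complex.exp_add, ← Complex.exp_add]
  congr 2
  push_cast
  ring

/-- the integral over the torus -/
theorem integral_gg (hr : 0 < r) (h0 : ∀ j, 2 * r ≤ th0 j ∧ th0 j ≤ Real.pi - 2 * r) (E t : ℝ)
    (n : Site d) :
    ∫ θ, gg th0 r E n θ t = ((2 * π) ^ d)⁻¹ •
      (Complex.exp (Complex.I * ((t * E : ℝ) : ℂ)) * ∏ j, hh (th0 j) r t (n j)) := by
  obtain ⟨F, hF⟩ : ∃ F : (Fin d → ℝ) → ℂ, ∀ y, F y = (cut th0 r y : ℂ) *
      (Complex.exp (-(Complex.I * ((t * (∑ j, 2 * Real.cos (y j) - E) : ℝ) : ℂ))) *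
        ∏ j, Complex.exp (Complex.I * ((n j * y j : ℝ) : ℂ))) := ⟨_, fun _ => rfl⟩
  have e1 : ∀ θ, gg th0 r E n θ t = F (ang θ) := by
    intro θ
    rw [hF]
    unfold gg
    rw [sy_eq, ch_eq]
  have hm : Measurable fun θ : UnitAddTorus (Fin d) => gg th0 r E n θ t :=
    measurable_gg1 E t n
  have hm2 : Measurable fun θ : UnitAddTorus (Fin d) => F (ang θ) := by
    simpa only [e1] using hm
  have e0 : ∫ θ, gg th0 r E n θ t = ∫ θ, F (ang θ) := by
    apply integral_congr_ae
    exact Filter.Eventually.of_forall e1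
  have hz : ∀ y : Fin d → ℝ, (∃ j, y j ≤ 0 ∨ 2 * π < y j) → F y = 0 := by
    intro y hy
    rw [hF, cut_zero hr h0 y hy, Complex.ofReal_zero, zero_mul]
  rw [e0, integral_ang F hm2.aestronglyMeasurable hz]
  congr 1
  have e2 : ∫ y, F y = ∫ y : Fin d → ℝ, Complex.exp (Complex.I * ((t * E : ℝ) : ℂ)) *
        ∏ j, (((aa (th0 j) r (y j) : ℝ) : ℂ) *
          Complex.exp (Complex.I * ((n j * y j - 2 * t * Real.cos (y j) : ℝ) : ℂ))) := by
    apply integral_congr_ae
    refine Filter.Eventually.of_forall fun y => ?_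
    show F y = _
    rw [hF]
    exact integrand_eq E t n y
  rw [e2, integral_const_mul]
  congr 1
  have e3 := integral_fintype_prod_volume_eq_prod (𝕜 := ℂ) (ι := Fin d) (E := fun _ => ℝ)
    (fun j x => ((aa (th0 j) r x : ℝ) : ℂ) *
          Complex.exp (Complex.I * ((n j * x - 2 * t * Real.cos x : ℝ) : ℂ)))
  rw [e3]
  apply Finset.prod_congr rfl
  intro j _
  exact hh_eq hr.le t (n j)

/-- the double integral -/
def JJ (th0 : Fin d → ℝ) (r E T : ℝ) (n : Site d) : ℂ :=
  ∫ θ, ∫ t in T..(2 * T), gg th0 r E n θ t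

theorem norm_JJ_le (hr : 0 < r) (hr1 : r ≤ 1 / 2)
    (h0 : ∀ j, 2 * r ≤ th0 j ∧ th0 j ≤ Real.pi - 2 * r) (E : ℝ) {T K : ℝ} (hT : 0 < T)
    (n : Site d)
    (hK : ‖∫ t in T..(2 * T), Complex.exp (Complex.I * ((t * E : ℝ) : ℂ)) *
          ∏ j, hh (th0 j) r t (n j)‖ ≤ K) : ‖JJ th0 r E T n‖ ≤ K := by
  have hpi := Real.pi_pos
  unfold JJ
  have hTT : T ≤ 2 * T := by linarith
  simp only [intervalIntegral.integral_of_le hTT]
  rw [integral_integral_swap]
  · simp only [integral_gg hr h0]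
    rw [integral_smul, ← intervalIntegral.integral_of_le hTT, norm_smul, norm_inv, norm_pow,
      Real.norm_eq_abs, abs_of_pos (by positivity : 0 < 2 * π)]
    have h1 : ((2 * π) ^ d)⁻¹ ≤ 1 := by
      apply inv_le_one_of_one_le₀
      apply one_le_pow₀
      linarith [Real.pi_gt_three]
    calc ((2 * π) ^ d)⁻¹ * _ ≤ 1 * K := mul_le_mul h1 hK (norm_nonneg _) (by norm_num)
      _ = K := one_mul K
  · apply Integrable.of_bound (measurable_gg E n).aestronglyMeasurable 1
    exact Filter.Eventually.of_forall fun p => norm_gg_le hr hr1 E n p.1 p.2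

/-- the inner integral -/
theorem sin_integral (T X : ℝ) :
    ((∫ t in T..(2 * T), Real.sin (t * X) : ℝ) : ℂ) =
      (conj (∫ t in T..(2 * T), Complex.exp (-(Complex.I * ((t * X : ℝ) : ℂ)))) -
        ∫ t in T..(2 * T), Complex.exp (-(Complex.I * ((t * X : ℝ) : ℂ)))) /
          (2 * Complex.I) := by
  obtain ⟨K, hK⟩ : ∃ K, K = ∫ t in T..(2 * T), Complex.exp (-(Complex.I * ((t * X : ℝ) : ℂ))) :=
    ⟨_, rfl⟩
  have hc : Continuous fun t : ℝ => Complex.exp (-(Complex.I * ((t * X : ℝ) : ℂ))) := by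
    fun_prop
  have h1 : ∫ t in T..(2 * T), Real.sin (t * X) = -K.im := by
    have h2 := Complex.imCLM.intervalIntegral_comp_comm (μ := volume)
      (hc.intervalIntegrable T (2 * T))
    rw [hK]
    have h3 : (∫ t in T..(2 * T), Complex.exp (-(Complex.I * ((t * X : ℝ) : ℂ)))).im =
        Complex.imCLM (∫ t in T..(2 * T), Complex.exp (-(Complex.I * ((t * X : ℝ) : ℂ)))) := rfl
    rw [h3, ← h2, ← intervalIntegral.integral_neg]
    apply intervalIntegral.integral_congr
    intro t _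
    show Real.sin (t * X) = -(Complex.exp (-(Complex.I * ((t * X : ℝ) : ℂ)))).im
    rw [show -(Complex.I * ((t * X : ℝ) : ℂ)) = ((-(t * X) : ℝ) : ℂ) * Complex.I by
      push_cast; ring, Complex.exp_ofReal_mul_I_im, Real.sin_neg, neg_neg]
  rw [h1, ← hK]
  have hI : Complex.I ≠ 0 := Complex.I_ne_zero
  rw [eq_div_iff (by simp)]
  apply Complex.ext
  · simp
  · simp
    ring

/-- the Fourier coefficients of the test multiplier -/
theorem coef_le (hr : 0 < r) (hr1 : r ≤ 1 / 2)
    (h0 : ∀ j, 2 * r ≤ th0 j ∧ th0 j ≤ Real.pi - 2 * r) (E : ℝ) {T K : ℝ} (hT : 0 < T)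
    (hK : ∀ n : Site d, ‖∫ t in T..(2 * T), Complex.exp (Complex.I * ((t * E : ℝ) : ℂ)) *
          ∏ j, hh (th0 j) r t (n j)‖ ≤ K) (y : Site d) :
    ‖∫ θ, ((cut th0 r (ang θ) * wh T (sy θ - E) * (sy θ - E) : ℝ) : ℂ) * ch y θ‖ ≤
      2 / T * K := by
  have e1 : ∀ θ : UnitAddTorus (Fin d),
      ((cut th0 r (ang θ) * wh T (sy θ - E) * (sy θ - E) : ℝ) : ℂ) * ch y θ =
      (1 / (T * Complex.I)) * (conj (∫ t in T..(2 * T), gg th0 r E (-y) θ t) -
        ∫ t in T..(2 * T), gg th0 r E y θ t) := by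
    intro θ
    rw [mul_assoc (cut th0 r (ang θ)), x_mul_wh hT]
    unfold gg
    rw [intervalIntegral.integral_const_mul, intervalIntegral.integral_const_mul,
      intervalIntegral.integral_mul_const, intervalIntegral.integral_mul_const, ch_neg]
    rw [Complex.ofReal_mul, Complex.ofReal_mul, sin_integral T (sy θ - E), map_mul, map_mul,
      Complex.conj_ofReal, Complex.conj_conj]
    have hI : Complex.I ≠ 0 := Complex.I_ne_zero
    have hTc : (T : ℂ) ≠ 0 := by exact_mod_cast hT.ne'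
    generalize (∫ t in T..(2 * T), Complex.exp (-(Complex.I * ((t * (sy θ - E) : ℝ) : ℂ)))) = K'
    push_cast
    field_simp
  have hint : ∀ n : Site d, Integrable fun θ : UnitAddTorus (Fin d) =>
      ∫ t in T..(2 * T), gg th0 r E n θ t := by
    intro n
    simp only [intervalIntegral.integral_of_le (by linarith : T ≤ 2 * T)]
    have h1 : Integrable (Function.uncurry fun (θ : UnitAddTorus (Fin d)) (t : ℝ) =>
        gg th0 r E n θ t) ((volume : Measure (UnitAddTorus (Fin d))).prod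
          (volume.restrict (Ioc T (2 * T)))) := by
      apply Integrable.of_bound (measurable_gg E n).aestronglyMeasurable 1
      exact Filter.Eventually.of_forall fun p => norm_gg_le hr hr1 E n p.1 p.2
    exact h1.integral_prod_left
  have hint2 : Integrable fun θ : UnitAddTorus (Fin d) =>
      conj (∫ t in T..(2 * T), gg th0 r E (-y) θ t) := by
    have := (hint (-y))
    exact (Complex.conjCLE.toContinuousLinearMap.integrable_comp this)
  simp only [e1]
  rw [integral_const_mul, integral_sub hint2 (hint y), norm_mul]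
  have h2 : ∫ θ : UnitAddTorus (Fin d), conj (∫ t in T..(2 * T), gg th0 r E (-y) θ t) =
      conj (JJ th0 r E T (-y)) := by
    unfold JJ
    exact integral_conj
  have h3 : ‖(1 / (T * Complex.I) : ℂ)‖ = 1 / T := by
    rw [norm_div, norm_mul, Complex.norm_I, norm_one, mul_one, Complex.norm_real,
      Real.norm_eq_abs, abs_of_pos hT]
  rw [h2, h3]
  have h4 : ‖conj (JJ th0 r E T (-y)) - ∫ θ, ∫ t in T..(2 * T), gg th0 r E y θ t‖ ≤ K + K := by
    refine (norm_sub_le _ _).trans (add_le_add ?_ ?_)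
    · rw [RCLike.norm_conj]
      exact norm_JJ_le hr hr1 h0 E hT _ (hK _)
    · exact norm_JJ_le hr hr1 h0 E hT _ (hK _)
  calc 1 / T * _ ≤ 1 / T * (K + K) := mul_le_mul_of_nonneg_left h4 (by positivity)
    _ = 2 / T * K := by ring

end Pool.Agent.LE.CL.H76
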