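import Pool.Agent.LE.StmtsP
import Pool.Agent.Helper76_LSP.Fou

/-!
# Squad LSP, row TSA: the test multiplier on the torus
-/

set_option autoImplicit false

open MeasureTheory ProbabilityTheory Function Filter

open scoped ENNReal BigOperators Topology NNReal ComplexOrder

noncomputable section

namespace Pool.Agent.LE.CL.H76

open Pool.Agent.Anderson hiding box mem_box card_box
open Pool.Agent.Loc Pool.Agent.Mob Pool.Agent.Helper54.Bal
  Pool.Agent.Helper96.EXP Pool.Agent.BED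
open Pool.Agent.LE.MN

theorem measurable_wh (T : ℝ) : Measurable (wh T) := by
  unfold wh
  fun_prop

/-- the power of `T` -/
theorem pow_eq {d : ℕ} (hd : 1 ≤ d) {T : ℝ} (hT : 0 < T) (C : ℝ) :
    2 / T * (C / Real.sqrt T ^ (d - 1)) = 2 * C * T ^ (-(((d : ℝ) + 1) / 2)) := by
  have h1 : Real.sqrt T ^ (d - 1) = T ^ (((d : ℝ) - 1) / 2) := by
    rw [Real.sqrt_eq_rpow, ← Real.rpow_natCast, ← Real.rpow_mul hT.le, Nat.cast_sub hd,
      Nat.cast_one]
    congr 1
    ring
  have h2 : T ^ (-(((d : ℝ) + 1) / 2)) = T⁻¹ * (T ^ (((d : ℝ) - 1) / 2))⁻¹ := by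
    rw [← Real.rpow_neg hT.le, ← Real.rpow_neg_one, ← Real.rpow_add hT]
    congr 1
    ring
  rw [h1, h2]
  ring

/-- TSA -/
theorem tsa (hK : KrbStmt) : TsaStmt := by
  intro d δ hd hδ
  obtain ⟨r, c, C, hr, hr1, hc, hC, hmain⟩ := hK d δ hd hδ
  have hpi := Real.pi_pos
  have hpi3 := Real.pi_gt_three
  refine ⟨((2 * Real.pi) ^ d)⁻¹ * c, 32 * (128 * Real.pi) + 2 * C, by positivity,
    by nlinarith, ?_⟩
  intro E T hE hT
  obtain ⟨th0, h0, hker, hT'⟩ := hmain E hE
  obtain ⟨T', hTT', hT'C, hmt⟩ := hT' T hT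
  have hT'1 : 1 ≤ T' := hT.trans hTT'
  have hT'0 : 0 < T' := by linarith
  have hTi : 0 < T'⁻¹ := inv_pos.2 hT'0
  have hmc : Measurable fun θ : UnitAddTorus (Fin d) => cut th0 r (ang θ) := measurable_cut_ang
  have hmw : Measurable fun θ : UnitAddTorus (Fin d) => wh T' (sy θ - E) :=
    (measurable_wh T').comp (continuous_sy.measurable.sub_const E)
  have hmq : Measurable fun θ : UnitAddTorus (Fin d) => cut th0 r (ang θ) * wh T' (sy θ - E) :=
    hmc.mul hmw
  have hc0 : ∀ θ : UnitAddTorus (Fin d), 0 ≤ cut th0 r (ang θ) := fun θ => cut_nonneg _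
  have hc1 : ∀ θ : UnitAddTorus (Fin d), cut th0 r (ang θ) ≤ 1 := fun θ => cut_le_one hr hr1 _
  have hsq : ∀ θ : UnitAddTorus (Fin d),
      (cut th0 r (ang θ) * wh T' (sy θ - E)) ^ 2 ≤ wh T' (sy θ - E) ^ 2 := by
    intro θ
    rw [mul_pow]
    have h1 : cut th0 r (ang θ) ^ 2 ≤ 1 := pow_le_one₀ (hc0 θ) (hc1 θ)
    nlinarith [sq_nonneg (wh T' (sy θ - E))]
  have hkc : Continuous fun θ : UnitAddTorus (Fin d) => ker T'⁻¹ (sy θ - E) :=
    (continuous_ker hTi).comp (continuous_sy.sub continuous_const)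
  have hki : Integrable fun θ : UnitAddTorus (Fin d) => ker T'⁻¹ (sy θ - E) :=
    integrable_of_cont hkc
  have hkb : ∫ θ : UnitAddTorus (Fin d), ker T'⁻¹ (sy θ - E) ≤ 128 * Real.pi :=
    integral_ker_le hd hTi E
  refine ⟨T', fun θ => cut th0 r (ang θ) * wh T' (sy θ - E), hTT', ?_, hmq, ?_, ?_, ?_, ?_, ?_⟩
  · refine hT'C.trans ?_
    apply mul_le_mul_of_nonneg_right _ (by linarith)
    nlinarith
  · intro θ
    show |cut th0 r (ang θ) * wh T' (sy θ - E)| ≤ _
    rw [abs_mul, abs_of_nonneg (hc0 θ)]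
    have h1 := abs_wh_le1 hT'0 (sy θ - E)
    calc cut th0 r (ang θ) * |wh T' (sy θ - E)| ≤ 1 * (3 * T') :=
          mul_le_mul (hc1 θ) h1 (abs_nonneg _) (by norm_num)
      _ ≤ (32 * (128 * Real.pi) + 2 * C) * T' := by
          rw [one_mul]
          apply mul_le_mul_of_nonneg_right _ hT'0.le
          nlinarith
  · have h1 : ∫ θ : UnitAddTorus (Fin d), cut th0 r (ang θ) * wh T' (sy θ - E) =
        ((2 * Real.pi) ^ d)⁻¹ • ∫ y : Fin d → ℝ, (∏ j, aa (th0 j) r (y j)) *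
          wh T' (∑ j, 2 * Real.cos (y j) - E) := by
      obtain ⟨F, hF⟩ : ∃ F : (Fin d → ℝ) → ℝ, ∀ y, F y = (∏ j, aa (th0 j) r (y j)) *
          wh T' (∑ j, 2 * Real.cos (y j) - E) := ⟨_, fun _ => rfl⟩
      have h2 : ∀ θ : UnitAddTorus (Fin d), cut th0 r (ang θ) * wh T' (sy θ - E) =
          F (ang θ) := by
        intro θ
        rw [sy_eq, hF]
        rfl
      have hm2 : Measurable fun θ : UnitAddTorus (Fin d) => F (ang θ) := by
        simpa only [h2] using hmq
      have hz : ∀ y : Fin d → ℝ, (∃ j, y j ≤ 0 ∨ 2 * Real.pi < y j) → F y = 0 := by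
        intro y hy
        rw [hF]
        show (cut th0 r y) * _ = 0
        rw [cut_zero hr h0 y hy, zero_mul]
      rw [integral_congr_ae (Filter.Eventually.of_forall h2),
        integral_ang F hm2.aestronglyMeasurable hz]
      congr 1
      exact integral_congr_ae (Filter.Eventually.of_forall hF)
    show ((2 * Real.pi) ^ d)⁻¹ * c ≤
      |∫ θ : UnitAddTorus (Fin d), cut th0 r (ang θ) * wh T' (sy θ - E)|
    rw [h1, smul_eq_mul, abs_mul, abs_of_pos (by positivity : 0 < ((2 * Real.pi) ^ d)⁻¹)]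
    exact mul_le_mul_of_nonneg_left (hmt.trans (le_abs_self _)) (by positivity)
  · show ∫ θ : UnitAddTorus (Fin d), (cut th0 r (ang θ) * wh T' (sy θ - E)) ^ 2 ≤ _
    have h1 : ∫ θ : UnitAddTorus (Fin d), (cut th0 r (ang θ) * wh T' (sy θ - E)) ^ 2 ≤
        ∫ θ : UnitAddTorus (Fin d), 32 * T' * ker T'⁻¹ (sy θ - E) := by
      apply integral_mono_of_nonneg (Filter.Eventually.of_forall fun θ => sq_nonneg _)
        (hki.const_mul _)
      exact Filter.Eventually.of_forall fun θ => (hsq θ).trans (wh_sq_le hT'0 _)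
    refine h1.trans ?_
    rw [integral_const_mul]
    calc 32 * T' * ∫ θ : UnitAddTorus (Fin d), ker T'⁻¹ (sy θ - E) ≤
          32 * T' * (128 * Real.pi) := mul_le_mul_of_nonneg_left hkb (by positivity)
      _ ≤ (32 * (128 * Real.pi) + 2 * C) * T' := by nlinarith
  · show ∫ θ : UnitAddTorus (Fin d), (cut th0 r (ang θ) * wh T' (sy θ - E)) ^ 2 * |sy θ - E| ≤ _
    have h1 : ∫ θ : UnitAddTorus (Fin d),
        (cut th0 r (ang θ) * wh T' (sy θ - E)) ^ 2 * |sy θ - E| ≤
        ∫ θ : UnitAddTorus (Fin d), 32 * ker T'⁻¹ (sy θ - E) := by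
      apply integral_mono_of_nonneg
        (Filter.Eventually.of_forall fun θ => mul_nonneg (sq_nonneg _) (abs_nonneg _))
        (hki.const_mul _)
      exact Filter.Eventually.of_forall fun θ =>
        (mul_le_mul_of_nonneg_right (hsq θ) (abs_nonneg _)).trans (wh_sq_abs_le hT'0 _)
    refine h1.trans ?_
    rw [integral_const_mul]
    calc 32 * ∫ θ : UnitAddTorus (Fin d), ker T'⁻¹ (sy θ - E) ≤
          32 * (128 * Real.pi) := mul_le_mul_of_nonneg_left hkb (by norm_num)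
      _ ≤ 32 * (128 * Real.pi) + 2 * C := by linarith
  · intro y
    have h1 := coef_le hr hr1 h0 E hT'0 (hker T' hT'1) y
    rw [pow_eq (by omega : 1 ≤ d) hT'0 C] at h1
    refine h1.trans ?_
    apply mul_le_mul_of_nonneg_right _ (Real.rpow_nonneg hT'0.le _)
    nlinarith

end Pool.Agent.LE.CL.H76
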