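import Pool.Agent.Helper76_LSP.Tor

/-!
# Squad LSP, row TSA, part 2: the Fourier transform of the trapezoid and the cut-off
-/

set_option autoImplicit false

open MeasureTheory Set Real Function

open scoped ENNReal ComplexConjugate

noncomputable section

namespace Pool.Agent.LE.CL.H76

open Pool.Agent.Anderson

theorem abs_cos_sub_le (a : ℝ) : |Real.cos a - Real.cos (2 * a)| ≤ 3 / 2 * a ^ 2 := by
  rw [Real.cos_sub_cos, abs_mul, abs_mul]
  have h1 : |Real.sin ((a + 2 * a) / 2)| ≤ |(a + 2 * a) / 2| := Real.abs_sin_le_abs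
  have h2 : |Real.sin ((a - 2 * a) / 2)| ≤ |(a - 2 * a) / 2| := Real.abs_sin_le_abs
  have h3 : |(a + 2 * a) / 2| = 3 / 2 * |a| := by
    rw [show (a + 2 * a) / 2 = 3 / 2 * a by ring, abs_mul, abs_of_pos (by norm_num)]
  have h4 : |(a - 2 * a) / 2| = 1 / 2 * |a| := by
    rw [show (a - 2 * a) / 2 = -(1 / 2 * a) by ring, abs_neg, abs_mul, abs_of_pos (by norm_num)]
  rw [h3] at h1
  rw [h4] at h2
  have h5 : |(-2 : ℝ)| = 2 := by norm_num
  rw [h5]
  have h6 : |Real.sin ((a + 2 * a) / 2)| * |Real.sin ((a - 2 * a) / 2)| ≤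
      3 / 2 * |a| * (1 / 2 * |a|) := mul_le_mul h1 h2 (abs_nonneg _) (by positivity)
  have h7 : |a| * |a| = a ^ 2 := by rw [abs_mul_abs_self, sq]
  nlinarith

theorem abs_wh_le1 {T : ℝ} (hT : 0 < T) (x : ℝ) : |wh T x| ≤ 3 * T := by
  unfold wh
  rcases eq_or_ne x 0 with rfl | hx
  · simp
    positivity
  · have hx2 : 0 < x ^ 2 := by positivity
    rw [abs_div, abs_of_pos (mul_pos hT hx2), div_le_iff₀ (mul_pos hT hx2), abs_mul,
      abs_of_pos (by norm_num : (0 : ℝ) < 2)]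
    have h1 := abs_cos_sub_le (T * x)
    rw [← mul_assoc] at h1
    calc 2 * |Real.cos (T * x) - Real.cos (2 * T * x)| ≤ 2 * (3 / 2 * (T * x) ^ 2) := by linarith
      _ = 3 * T * (T * x ^ 2) := by ring

theorem abs_wh_le2 {T : ℝ} (hT : 0 < T) (x : ℝ) : |wh T x| ≤ 4 / (T * x ^ 2) := by
  unfold wh
  rw [abs_div, abs_of_nonneg (by positivity : 0 ≤ T * x ^ 2)]
  apply div_le_div_of_nonneg_right _ (by positivity)
  rw [abs_mul, abs_of_pos (by norm_num : (0 : ℝ) < 2)]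
  have h1 : |Real.cos (T * x) - Real.cos (2 * T * x)| ≤
      |Real.cos (T * x)| + |Real.cos (2 * T * x)| := abs_sub _ _
  have h2 := Real.abs_cos_le_one (T * x)
  have h3 := Real.abs_cos_le_one (2 * T * x)
  linarith

theorem ker_inv {T : ℝ} (hT : 0 < T) (x : ℝ) : ker T⁻¹ x = T / (T ^ 2 * x ^ 2 + 1) := by
  unfold ker
  rw [div_eq_div_iff (by positivity) (by positivity)]
  field_simp

theorem wh_sq_le {T : ℝ} (hT : 0 < T) (x : ℝ) : wh T x ^ 2 ≤ 32 * T * ker T⁻¹ x := by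
  rw [ker_inv hT, ← mul_div_assoc, le_div_iff₀ (by positivity), ← sq_abs (wh T x)]
  have h0 := abs_nonneg (wh T x)
  rcases le_or_gt ((T * x) ^ 2) 1 with h | h
  · have h1 := abs_wh_le1 hT x
    have h2 : |wh T x| ^ 2 ≤ (3 * T) ^ 2 := pow_le_pow_left₀ h0 h1 2
    have h3 : T ^ 2 * x ^ 2 + 1 ≤ 2 := by nlinarith
    calc |wh T x| ^ 2 * (T ^ 2 * x ^ 2 + 1) ≤ (3 * T) ^ 2 * 2 :=
          mul_le_mul h2 h3 (by positivity) (by positivity)
      _ ≤ 32 * T * T := by nlinarith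
  · have h1 := abs_wh_le2 hT x
    have hx : x ≠ 0 := by
      rintro rfl
      norm_num at h
    have hx2 : 0 < x ^ 2 := by positivity
    have h2 : |wh T x| ^ 2 ≤ (4 / (T * x ^ 2)) ^ 2 := pow_le_pow_left₀ h0 h1 2
    have h3 : T ^ 2 * x ^ 2 + 1 ≤ 2 * (T ^ 2 * x ^ 2) := by nlinarith
    calc |wh T x| ^ 2 * (T ^ 2 * x ^ 2 + 1) ≤ (4 / (T * x ^ 2)) ^ 2 * (2 * (T ^ 2 * x ^ 2)) :=
          mul_le_mul h2 h3 (by positivity) (by positivity)
      _ = 32 / x ^ 2 := by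
          field_simp
          ring
      _ ≤ 32 * T * T := by
          rw [div_le_iff₀ hx2]
          nlinarith

theorem wh_sq_abs_le {T : ℝ} (hT : 0 < T) (x : ℝ) :
    wh T x ^ 2 * |x| ≤ 32 * ker T⁻¹ x := by
  rw [ker_inv hT, ← mul_div_assoc, le_div_iff₀ (by positivity), ← sq_abs (wh T x)]
  have h0 := abs_nonneg (wh T x)
  have hx0 := abs_nonneg x
  have hxx : |x| ^ 2 = x ^ 2 := sq_abs x
  rcases le_or_gt (T * |x|) 1 with h | h
  · have h1 := abs_wh_le1 hT x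
    have h2 : |wh T x| ^ 2 ≤ (3 * T) ^ 2 := pow_le_pow_left₀ h0 h1 2
    have h4 : (T * |x|) ^ 2 ≤ 1 := pow_le_one₀ (by positivity) h
    have h3 : T ^ 2 * x ^ 2 + 1 ≤ 2 := by
      rw [mul_pow, hxx] at h4
      linarith
    have h5 : |wh T x| ^ 2 * |x| ≤ 9 * T := by
      calc |wh T x| ^ 2 * |x| ≤ (3 * T) ^ 2 * |x| := mul_le_mul_of_nonneg_right h2 hx0
        _ = 9 * T * (T * |x|) := by ring
        _ ≤ 9 * T * 1 := mul_le_mul_of_nonneg_left h (by positivity)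
        _ = 9 * T := by ring
    calc |wh T x| ^ 2 * |x| * (T ^ 2 * x ^ 2 + 1) ≤ 9 * T * 2 :=
          mul_le_mul h5 h3 (by positivity) (by positivity)
      _ ≤ 32 * T := by linarith
  · have h1 := abs_wh_le2 hT x
    have hx : x ≠ 0 := by
      rintro rfl
      norm_num at h
    have hx' : 0 < |x| := abs_pos.2 hx
    have h2 : |wh T x| ^ 2 ≤ (4 / (T * x ^ 2)) ^ 2 := pow_le_pow_left₀ h0 h1 2
    have h4 : 1 < (T * |x|) ^ 2 := one_lt_pow₀ h (by norm_num)
    have h3 : T ^ 2 * x ^ 2 + 1 ≤ 2 * (T ^ 2 * x ^ 2) := by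
      rw [mul_pow, hxx] at h4
      linarith
    calc |wh T x| ^ 2 * |x| * (T ^ 2 * x ^ 2 + 1) ≤
        (4 / (T * x ^ 2)) ^ 2 * |x| * (2 * (T ^ 2 * x ^ 2)) :=
          mul_le_mul (mul_le_mul_of_nonneg_right h2 hx0) h3 (by positivity) (by positivity)
      _ = 32 / |x| := by
          rw [← hxx]
          field_simp
          ring
      _ ≤ 32 * T := by
          rw [div_le_iff₀ hx']
          nlinarith

theorem x_mul_wh {T : ℝ} (hT : 0 < T) (x : ℝ) :
    wh T x * x = 2 / T * ∫ t in T..(2 * T), Real.sin (t * x) := by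
  rcases eq_or_ne x 0 with rfl | hx
  · simp
  · rw [intervalIntegral.integral_comp_mul_right (fun y => Real.sin y) hx, integral_sin,
      smul_eq_mul]
    unfold wh
    field_simp

/-! ### the cut-off -/

theorem aa_nonneg (th0 r x : ℝ) : 0 ≤ aa th0 r x := le_max_right _ _

theorem aa_le (th0 r x : ℝ) : aa th0 r x ≤ r ^ 2 := by
  unfold aa
  apply max_le
  · nlinarith [sq_nonneg (x - th0)]
  · positivity

theorem aa_zero {th0 r x : ℝ} (hr : 0 ≤ r) (h : r ≤ |x - th0|) : aa th0 r x = 0 := by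
  unfold aa
  apply max_eq_right
  have h1 : r ^ 2 ≤ |x - th0| ^ 2 := pow_le_pow_left₀ hr h 2
  rw [sq_abs] at h1
  linarith

theorem aa_eq {th0 r x : ℝ} (h : |x - th0| ≤ r) : aa th0 r x = r ^ 2 - (x - th0) ^ 2 := by
  unfold aa
  apply max_eq_left
  have h1 : |x - th0| ^ 2 ≤ r ^ 2 := pow_le_pow_left₀ (abs_nonneg _) h 2
  rw [sq_abs] at h1
  linarith

theorem continuous_aa (th0 r : ℝ) : Continuous (aa th0 r) := by
  unfold aa
  fun_prop

theorem hh_eq {th0 r : ℝ} (hr : 0 ≤ r) (t : ℝ) (n : ℤ) :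
    ∫ x : ℝ, ((aa th0 r x : ℝ) : ℂ) *
      Complex.exp (Complex.I * ((n * x - 2 * t * Real.cos x : ℝ) : ℂ)) = hh th0 r t n := by
  unfold hh
  rw [intervalIntegral.integral_of_le (by linarith)]
  have h1 : ∫ x in Ioc (th0 - r) (th0 + r), ((r ^ 2 - (x - th0) ^ 2 : ℝ) : ℂ) *
      Complex.exp (Complex.I * ((n * x - 2 * t * Real.cos x : ℝ) : ℂ)) =
      ∫ x in Ioc (th0 - r) (th0 + r), ((aa th0 r x : ℝ) : ℂ) *
      Complex.exp (Complex.I * ((n * x - 2 * t * Real.cos x : ℝ) : ℂ)) := by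
    apply setIntegral_congr_fun measurableSet_Ioc
    intro x hx
    show ((r ^ 2 - (x - th0) ^ 2 : ℝ) : ℂ) * _ = ((aa th0 r x : ℝ) : ℂ) * _
    rw [aa_eq]
    rw [abs_le]
    constructor <;> linarith [hx.1, hx.2]
  rw [h1]
  symm
  apply setIntegral_eq_integral_of_forall_compl_eq_zero
  intro x hx
  rw [Set.mem_Ioc, not_and_or, not_lt, not_le] at hx
  rw [aa_zero hr, Complex.ofReal_zero, zero_mul]
  rcases hx with hx | hx
  · rw [le_abs]
    right
    linarith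
  · rw [le_abs]
    left
    linarith

/-- the product of the cut-offs -/
def cut {d : ℕ} (th0 : Fin d → ℝ) (r : ℝ) (y : Fin d → ℝ) : ℝ := ∏ j, aa (th0 j) r (y j)

variable {d : ℕ} {th0 : Fin d → ℝ} {r : ℝ}

theorem cut_nonneg (y : Fin d → ℝ) : 0 ≤ cut th0 r y :=
  Finset.prod_nonneg fun j _ => aa_nonneg _ _ _

theorem cut_le_one (hr : 0 < r) (hr1 : r ≤ 1 / 2) (y : Fin d → ℝ) : cut th0 r y ≤ 1 := by
  apply Finset.prod_le_one
  · intro j _
    exact aa_nonneg _ _ _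
  · intro j _
    refine (aa_le _ _ _).trans ?_
    nlinarith

theorem cut_zero (hr : 0 < r) (h0 : ∀ j, 2 * r ≤ th0 j ∧ th0 j ≤ Real.pi - 2 * r) (y : Fin d → ℝ)
    (hy : ∃ j, y j ≤ 0 ∨ 2 * π < y j) : cut th0 r y = 0 := by
  obtain ⟨j, hj⟩ := hy
  have hpi := Real.pi_pos
  apply Finset.prod_eq_zero (Finset.mem_univ j)
  apply aa_zero hr.le
  obtain ⟨h1, h2⟩ := h0 j
  rcases hj with hj | hj
  · rw [le_abs]
    right
    linarith
  · rw [le_abs]
    left
    linarith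

theorem continuous_cut : Continuous (cut th0 r) := by
  unfold cut
  apply continuous_finsetProd
  intro j _
  exact (continuous_aa _ _).comp (continuous_apply j)

end Pool.Agent.LE.CL.H76
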